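import Mathlib
import Pool.Agent.H18.Twin2

set_option autoImplicit false

namespace Pool.Agent.Results.MP_3f3e0f_an.FullPower

open Polynomial Pool.Agent.H18.Twin

/-- If `F : [0,∞) → [0,∞)` with `F(0) = 0` preserves real-rootedness entrywise, then either `F`
is identically zero on `[0,∞)`, or `F(x) = c x ^ α` for all `x ≥ 0` with `c > 0` and `α = 1` or
`α > 11/10`. -/
theorem result (F : ℝ → ℝ) (hFn : ∀ x, 0 ≤ x → 0 ≤ F x) (hF0 : F 0 = 0)
    (hF : ∀ p : ℝ[X], PPos p → RealRooted (image F p)) :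
    (∀ x, 0 ≤ x → F x = 0) ∨
      ∃ c α : ℝ, 0 < c ∧ (α = 1 ∨ 11 / 10 < α) ∧ ∀ x, 0 ≤ x → F x = c * x ^ α :=
  full F hFn hF0 hF

end Pool.Agent.Results.MP_3f3e0f_an.FullPower
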