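import Pool.Agent.H11P.Strong

namespace Pool.Agent.Results.MP_3f3e0f_an.PowerOrZero

open Polynomial Pool.Agent.H11P

/-- Every entrywise preserver of real-rootedness on `𝒫⁺` is zero or a power function `c x^α`
with `α = 1` or `α > 11/10`. -/
theorem result (F : ℝ → ℝ) (hFn : ∀ x, 0 ≤ x → 0 ≤ F x) (hF0 : F 0 = 0) (hP : Preserves F) :
    (∀ x, 0 ≤ x → F x = 0) ∨
    ∃ c α : ℝ, 0 < c ∧ (α = 1 ∨ 11/10 < α) ∧ ∀ x, 0 ≤ x → F x = c * x ^ α :=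
  strong hFn hF0 hP

end Pool.Agent.Results.MP_3f3e0f_an.PowerOrZero
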